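import Mathlib

/-! Euclidean level definitions for the packages C (Gromov compactness) and D (deformation). -/

open scoped ContDiff Topology ENNReal
open Complex MeasureTheory Filter Set

namespace Pool.Agent.Lib.MP_1c0d65_gt

/-- A map from the Riemann sphere, given in the charts z and 1/z. -/
structure Sph2 (E : Type) where
  u0 : ℂ → E
  u1 : ℂ → E
  compat : ∀ z, z ≠ 0 → u1 z = u0 z⁻¹

/-- The image of a sphere. -/
def Sph2.im {E : Type} (s : Sph2 E) : Set E := range s.u0 ∪ range s.u1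

/-- An injective sphere. -/
def Sph2.Inj {E : Type} (s : Sph2 E) : Prop :=
  Function.Injective s.u0 ∧ ∀ z, s.u0 z ≠ s.u1 0

variable {E F : Type} [NormedAddCommGroup E] [NormedSpace ℝ E]
  [NormedAddCommGroup F] [NormedSpace ℝ F]

/-- The Cauchy-Riemann equation at a point. -/
def CR (J : E → E →L[ℝ] E) (u : ℂ → E) (z : ℂ) : Prop :=
  fderiv ℝ u z I = J (u z) (fderiv ℝ u z 1)

/-- The energy on a set. -/
noncomputable def en (u : ℂ → E) (Ω : Set ℂ) : ℝ≥0∞ := ∫⁻ z in Ω, ‖fderiv ℝ u z‖ₑ ^ 2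

/-- The density of the pull-back of a 2-form. -/
noncomputable def dens (a : E → E →L[ℝ] E →L[ℝ] ℝ) (u : ℂ → E) (z : ℂ) : ℝ :=
  a (u z) (fderiv ℝ u z 1) (fderiv ℝ u z I)

/-- An immersed sphere. -/
def Sph2.Imm (s : Sph2 E) : Prop :=
  (∀ z, fderiv ℝ s.u0 z 1 ≠ 0) ∧ ∀ z, fderiv ℝ s.u1 z 1 ≠ 0

/-- Convergence in C^1 on a set. -/
def C1Lim (u : ℕ → ℂ → E) (v : ℂ → E) (Ω : Set ℂ) : Prop :=
  TendstoUniformlyOn u v atTop Ω ∧
    TendstoUniformlyOn (fun n => fderiv ℝ (u n)) (fderiv ℝ v) atTop Ω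

/-- A family of targets `K t` in `E`, with local holomorphic coordinates `g k` in `F`. -/
structure Tgt (E F : Type) [NormedAddCommGroup E] [NormedSpace ℝ E]
    [NormedAddCommGroup F] [NormedSpace ℝ F] where
  /-- the total space: pairs (parameter, point) -/
  K : Set (ℝ × E)
  cpt : IsCompact K
  ι : Type
  O : ι → Set (ℝ × E)
  V : ι → Set (ℝ × F)
  g : ι → ℝ × E → F
  h : ι → ℝ × F → E
  J : ι → ℝ × F → F →L[ℝ] F
  opO : ∀ k, IsOpen (O k)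
  opV : ∀ k, IsOpen (V k)
  cov : ∀ p ∈ K, ∃ k, p ∈ O k
  smg : ∀ k, ContDiffOn ℝ ∞ (g k) (O k)
  smh : ∀ k, ContDiffOn ℝ ∞ (h k) (V k)
  smJ : ∀ k, ContDiffOn ℝ ∞ (J k) (V k)
  maps : ∀ k, ∀ p ∈ O k, (p.1, g k p) ∈ V k
  inv : ∀ k, ∀ p ∈ O k, p ∈ K → h k (p.1, g k p) = p.2
  sq : ∀ k, ∀ q ∈ V k, ∀ y, J k q (J k q y) = -y

/-- `u` is a holomorphic curve in `K t` at `z` (used on open sets of `z`). -/
def Tgt.Hol (T : Tgt E F) (t : ℝ) (u : ℂ → E) (z : ℂ) : Prop :=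
  (t, u z) ∈ T.K ∧ ContDiffAt ℝ 1 u z ∧ ∀ k, (t, u z) ∈ T.O k →
    CR (fun y => T.J k (t, y)) (fun w => T.g k (t, u w)) z

/-- A holomorphic sphere in `K t`. -/
def Tgt.HolS (T : Tgt E F) (t : ℝ) (s : Sph2 E) : Prop :=
  (∀ z, T.Hol t s.u0 z) ∧ ∀ z, T.Hol t s.u1 z

/-- A four-dimensional submanifold `K` of `E`, given by a smooth retraction `r` of the open set
`W`, with a smooth family of almost complex structures. -/
structure Amb (E : Type) [NormedAddCommGroup E] [NormedSpace ℝ E] where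
  K : Set E
  W : Set E
  r : E → E
  J : ℝ × E → E →L[ℝ] E
  opW : IsOpen W
  sub : K ⊆ W
  smr : ContDiffOn ℝ ∞ r W
  rK : ∀ e ∈ W, r e ∈ K
  rid : ∀ e ∈ K, r e = e
  smJ : ContDiffOn ℝ ∞ J (univ ×ˢ W)
  dim : ∀ e ∈ K, Module.finrank ℝ (LinearMap.range (fderiv ℝ r e).toLinearMap) = 4
  tan : ∀ t, ∀ e ∈ K, ∀ v, fderiv ℝ r e (J (t, e) v) = J (t, e) v
  sq : ∀ t, ∀ e ∈ K, ∀ v, J (t, e) (J (t, e) v) = -fderiv ℝ r e v

/-- A holomorphic sphere in `K`. -/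
def Amb.HolS (A : Amb E) (t : ℝ) (s : Sph2 E) : Prop :=
  ContDiff ℝ 1 s.u0 ∧ ContDiff ℝ 1 s.u1 ∧ s.im ⊆ A.K ∧
    (∀ z, CR (fun e => A.J (t, e)) s.u0 z) ∧ ∀ z, CR (fun e => A.J (t, e)) s.u1 z

/-- Multiplication of a tangent vector by a complex number. -/
noncomputable def cmul (J : E →L[ℝ] E) (c : ℂ) (v : E) : E := c.re • v + c.im • J v

/-- A smooth normal frame in the two charts, with transition function `z ^ m`. -/
structure Amb.NFrame (A : Amb E) (t : ℝ) (s : Sph2 E) (m : ℤ) where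
  n0 : ℂ → E
  n1 : ℂ → E
  sm0 : ContDiff ℝ ∞ n0
  sm1 : ContDiff ℝ ∞ n1
  tan0 : ∀ z, fderiv ℝ A.r (s.u0 z) (n0 z) = n0 z
  tan1 : ∀ z, fderiv ℝ A.r (s.u1 z) (n1 z) = n1 z
  tr0 : ∀ z (a b : ℂ), cmul (A.J (t, s.u0 z)) a (fderiv ℝ s.u0 z 1) +
    cmul (A.J (t, s.u0 z)) b (n0 z) = 0 → a = 0 ∧ b = 0
  tr1 : ∀ z (a b : ℂ), cmul (A.J (t, s.u1 z)) a (fderiv ℝ s.u1 z 1) +
    cmul (A.J (t, s.u1 z)) b (n1 z) = 0 → a = 0 ∧ b = 0
  trans : ∀ z, z ≠ 0 → n1 z = cmul (A.J (t, s.u1 z)) (z⁻¹ ^ m) (n0 z⁻¹)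

end Pool.Agent.Lib.MP_1c0d65_gt
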