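import Mathlib

/-! The local model: the fibres of x y - z ^ p in complex 3-space. -/

open scoped ComplexConjugate
open Complex

namespace Pool.Agent.Lib.MP_1c0d65_gt

/-- Complex 3-space. -/
abbrev C3 := ℂ × ℂ × ℂ

/-- The function x y - z ^ p. -/
def fP (p : ℕ) (a : C3) : ℂ := a.1 * a.2.1 - a.2.2 ^ p

/-- The standard symplectic form. -/
noncomputable def om3 (v w : C3) : ℝ :=
  (conj v.1 * w.1).im + (conj v.2.1 * w.2.1).im + (conj v.2.2 * w.2.2).im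

/-- The action with weights (1, -1, q). -/
noncomputable def act (q : ℕ) (ζ : ℂ) (a : C3) : C3 := (ζ * a.1, ζ⁻¹ * a.2.1, ζ ^ q * a.2.2)

/-- The thimble: y = conj x and z ^ p real and non-positive. -/
def thim (p : ℕ) : Set C3 := {a | a.2.1 = conj a.1 ∧ (a.2.2 ^ p).im = 0 ∧ (a.2.2 ^ p).re ≤ 0}

/-- The core of the fibre over 1. -/
def core (p : ℕ) : Set C3 := {a | a ∈ thim p ∧ fP p a = 1}

/-- The domain of the flow map. -/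
def dom (p : ℕ) (ε : ℝ) : Set C3 := {a | ‖a‖ < ε ∧ a ≠ 0 ∧ (fP p a).im = 0 ∧ 0 ≤ (fP p a).re}

/-- The map from the fibres near the origin to the fibre over 1. -/
structure FlowMap (p : ℕ) (ε : ℝ) (Φ : C3 → C3) : Prop where
  smooth : ∀ a ∈ dom p ε, ContDiffAt ℝ (⊤ : ℕ∞) Φ a
  level : ∀ a ∈ dom p ε, ∀ᶠ b in nhds a, fP p (Φ b) = 1 + (fP p b).im * I
  sympl : ∀ a ∈ dom p ε, ∀ v w, fderiv ℝ (fP p) a v = 0 → fderiv ℝ (fP p) a w = 0 →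
    om3 (fderiv ℝ Φ a v) (fderiv ℝ Φ a w) = om3 v w
  equiv : ∀ a ∈ dom p ε, ∀ (q : ℕ) (ζ : ℂ), ζ ^ p = 1 → Φ (act q ζ a) = act q ζ (Φ a)
  inj : ∀ a ∈ dom p ε, ∀ b ∈ dom p ε, fP p a = fP p b → Φ a = Φ b → a = b
  core : ∀ a ∈ dom p ε, Φ a ∈ core p ↔ a ∈ thim p
  near : ∀ U, IsOpen U → MP_1c0d65_gt.core p ⊆ U → ∃ δ > 0, ∀ a ∈ dom p ε, ‖a‖ < δ → Φ a ∈ U
  onto : ∀ δ > 0, ∃ U, IsOpen U ∧ MP_1c0d65_gt.core p ⊆ U ∧ ∃ t0 > 0, ∀ b ∈ U, fP p b = 1 →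
    ∀ t : ℝ, 0 ≤ t → t ≤ t0 → (t = 0 → b ∉ MP_1c0d65_gt.core p) →
      ∃ a ∈ dom p ε, ‖a‖ < δ ∧ fP p a = t ∧ Φ a = b

end Pool.Agent.Lib.MP_1c0d65_gt
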