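import Pool.Agent.Lib.MP_1c0d65_gt.Df.Euc

/-! Targets without parameter (the parameter is a coordinate of `V` and of `F`). -/

open scoped ContDiff Topology

namespace Pool.Agent.Lib.MP_1c0d65_gt

/-- A compact set `K` in `V` with local holomorphic coordinates `g k` in `F`. -/
structure Tg (V F : Type) [NormedAddCommGroup V] [NormedSpace ℝ V]
    [NormedAddCommGroup F] [NormedSpace ℝ F] where
  K : Set V
  cpt : IsCompact K
  ι : Type
  O : ι → Set V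
  W : ι → Set F
  g : ι → V → F
  h : ι → F → V
  J : ι → F → F →L[ℝ] F
  opO : ∀ k, IsOpen (O k)
  opW : ∀ k, IsOpen (W k)
  cov : ∀ e ∈ K, ∃ k, e ∈ O k
  smg : ∀ k, ContDiffOn ℝ ∞ (g k) (O k)
  smh : ∀ k, ContDiffOn ℝ ∞ (h k) (W k)
  smJ : ∀ k, ContDiffOn ℝ ∞ (J k) (W k)
  maps : ∀ k, ∀ e ∈ O k, g k e ∈ W k
  inv : ∀ k, ∀ e ∈ O k, e ∈ K → h k (g k e) = e
  sq : ∀ k, ∀ y ∈ W k, ∀ v, J k y (J k y v) = -v

variable {V F : Type} [NormedAddCommGroup V] [NormedSpace ℝ V]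
  [NormedAddCommGroup F] [NormedSpace ℝ F]

/-- `w` is a holomorphic curve in `K` at `z` (used on open sets of `z`). -/
def Tg.Hol (T : Tg V F) (w : ℂ → V) (z : ℂ) : Prop :=
  w z ∈ T.K ∧ ContDiffAt ℝ 1 w z ∧ ∀ k, w z ∈ T.O k → CR (T.J k) (T.g k ∘ w) z

end Pool.Agent.Lib.MP_1c0d65_gt
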